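import Pool.Agent.W200.MR.Stm

/-!
# Final assembly for S18410
-/

open Finset Filter Topology MeasureTheory

namespace Pool.Agent.W200.MR

theorem t_FUR : S_FURa → S_FURb → S_FUR := by
  intro ha hb ε hε hlim w hw Nk μ hNk hμ h1 hs hc
  exact hb μ hμ hs (ha ε hε hlim w hw Nk μ hNk hμ h1 hs hc)

open Classical in
theorem eps_eq_or (s : ℕ → ℝ) (T L : ℕ → ℕ) (n : ℕ) : eps s T L n = 1 ∨ eps s T L n = -1 := by
  unfold eps
  split_ifs
  · exact Or.inr rfl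
  · exact Or.inl rfl

open Classical in
theorem eps_on {s : ℕ → ℝ} {T L : ℕ → ℕ} (hT : StrictMono T)
    (hL : ∀ k, T k ≤ L k ∧ L k < T (k + 1)) {k n : ℕ} (h1 : L k ≤ n) (h2 : n < T (k + 1)) :
    eps s T L n = if (pw (s (k + 1)) n).re < 0 then -1 else 1 := by
  unfold eps
  have key : (∃ j : ℕ, L j ≤ n ∧ n < T (j + 1) ∧ (pw (s (j + 1)) n).re < 0) ↔
      (pw (s (k + 1)) n).re < 0 := by
    constructor
    · rintro ⟨j, hj1, hj2, hj3⟩
      have : j = k := by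
        rcases lt_trichotomy j k with h | h | h
        · exfalso
          have a1 : T (j + 1) ≤ T k := hT.monotone (by omega)
          have a2 := (hL k).1
          omega
        · exact h
        · exfalso
          have a1 : T (k + 1) ≤ T j := hT.monotone (by omega)
          have a2 := (hL j).1
          omega
      subst this
      exact hj3
    · intro h
      exact ⟨k, h1, h2, h⟩
  by_cases h : (pw (s (k + 1)) n).re < 0
  · rw [if_pos (key.2 h), if_pos h]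
  · rw [if_neg (fun h' => h (key.1 h')), if_neg h]

theorem final (h1 : S_SEQ) (h2 : S_FUR) (h3 : S_EPS) (h4 : S_COR) (h5 : S_LIM) (h6 : S_APM)
    (h7 : S_OD) : ¬ (∀ (f w : ℕ → ℂ),
    (∀ n : ℕ, 1 ≤ n → ‖f n‖ ≤ 1) →
    (∀ m n : ℕ, 1 ≤ m → 1 ≤ n → Nat.Coprime m n → f (m * n) = f m * f n) →
    (∀ a b : ℕ, 1 ≤ a → 1 ≤ b →
      Tendsto (fun N : ℕ => (1 / (N : ℂ)) * ∑ n ∈ Finset.Icc 1 N, f (a * n + b)) atTop (𝓝 0)) →
    (∀ n : ℕ, 1 ≤ n → ‖w n‖ ≤ 1) →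
    (∀ (Nk : ℕ → ℕ) (μ : Measure (ℤ → ℂ)), StrictMono Nk → IsProbabilityMeasure μ →
      μ {x | ∀ z : ℤ, ‖x z‖ ≤ 1} = 1 →
      MeasurePreserving (fun x : ℤ → ℂ => fun z : ℤ => x (z + 1)) μ μ →
      (∀ (m : ℕ) (h : Fin m → ℕ) (ε : Fin m → Bool),
        Tendsto (fun k : ℕ => (1 / (Nk k : ℂ)) * ∑ n ∈ Finset.Icc 1 (Nk k),
            ∏ j : Fin m, (if ε j then starRingEnd ℂ (w (n + h j)) else w (n + h j)))
          atTop
          (𝓝 (∫ x, ∏ j : Fin m,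
              (if ε j then starRingEnd ℂ (x ((h j : ℕ) : ℤ)) else x ((h j : ℕ) : ℤ)) ∂μ))) →
      Ergodic (fun x : ℤ → ℂ => fun z : ℤ => x (z + 1)) μ ∧
      ∀ (k : ℕ) (g : (ℤ → ℂ) → Fin k), Measurable g →
        Tendsto (fun n : ℕ =>
            (∑ a : Fin n → Fin k,
              Real.negMulLog
                (μ {x | ∀ i : Fin n, g (fun z : ℤ => x (z + ((i : ℕ) : ℤ))) = a i}).toReal)
              / (n : ℝ))
          atTop (𝓝 0)) →
    Tendsto (fun N : ℕ => (1 / (N : ℂ)) * ∑ n ∈ Finset.Icc 1 N, f n * w n) atTop (𝓝 0)) := by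
  intro H
  classical
  -- thresholds
  have hN1 : ∀ (s : ℝ) (L : ℕ), ∃ N1 : ℕ, 2 ≤ s → ∀ N : ℕ, N1 ≤ N → ∀ (z : ℕ → ℂ) (e : ℕ → ℝ)
      (τ : ℝ), 0 ≤ τ → τ ≤ 1 / 32 → (∀ n, ‖z n‖ ≤ 1) → (∀ n, e n = 1 ∨ e n = -1) →
      (∀ n : ℕ, L ≤ n → n ≤ N → ‖z n - pw s n‖ ≤ τ) →
      (∀ n : ℕ, L ≤ n → n ≤ N → e n = if (pw s n).re < 0 then -1 else 1) →
      (N : ℝ) / 16 ≤ ∑ n ∈ (Icc 1 N).filter (fun n => n % 2 = 1), (z n * (e n : ℂ)).re := by
    intro s L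
    by_cases hs : 2 ≤ s
    · obtain ⟨N1, hN⟩ := h4 s L hs
      exact ⟨N1, fun _ => hN⟩
    · exact ⟨0, fun h => absurd h hs⟩
  choose N1 hN1 using hN1
  let Lf : ℕ → ℝ → ℕ → ℕ := fun k s' T' => max T' ⌈(((k : ℝ) + 1) * s') ^ 4⌉₊
  let Φ : ℕ → ℝ → ℕ → ℕ := fun k s' T' => max (Lf k s' T' + 1) (N1 s' (Lf k s' T') + 1)
  obtain ⟨s, T, hs, hTs, hclose, hSA, hΦ⟩ := h1 Φ
  have hT : StrictMono T := strictMono_nat_of_lt_succ hTs
  obtain ⟨F, hF1, hFm, hFc⟩ := h5 s T hTs hclose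
  have hAP := h6 s T F hTs hFc hSA
  have hOD := h7 F (fun n => (hF1 n).le) hAP
  let L : ℕ → ℕ := fun k => Lf k (s (k + 1)) (T k)
  have hL1 : ∀ k, T k ≤ L k := fun k => le_max_left _ _
  have hL2 : ∀ k : ℕ, (((k : ℝ) + 1) * s (k + 1)) ^ 4 ≤ L k := by
    intro k
    have a1 : (((k : ℝ) + 1) * s (k + 1)) ^ 4 ≤ (⌈(((k : ℝ) + 1) * s (k + 1)) ^ 4⌉₊ : ℝ) :=
      Nat.le_ceil _
    have a2 : (⌈(((k : ℝ) + 1) * s (k + 1)) ^ 4⌉₊ : ℝ) ≤ (L k : ℝ) := by
      have : ⌈(((k : ℝ) + 1) * s (k + 1)) ^ 4⌉₊ ≤ L k := le_max_right _ _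
      exact_mod_cast this
    exact a1.trans a2
  have hL3 : ∀ k, L k + 1 ≤ T (k + 1) := fun k => (le_max_left _ _).trans (hΦ k)
  have hL4 : ∀ k, N1 (s (k + 1)) (L k) + 1 ≤ T (k + 1) := fun k => (le_max_right _ _).trans (hΦ k)
  have hLT : ∀ k, T k ≤ L k ∧ L k < T (k + 1) := fun k => ⟨hL1 k, hL3 k⟩
  have hεlim := h3 s T L hs hLT hL2
  set ε : ℕ → ℝ := eps s T L with hεdef
  have hε : ∀ n, ε n = 1 ∨ ε n = -1 := fun n => eps_eq_or s T L n
  let f : ℕ → ℂ := fun n => if n % 2 = 1 then F n else 0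
  let w : ℕ → ℂ := fun n => (((-1 : ℝ) ^ n * ε n : ℝ) : ℂ)
  have hw1 : ∀ n, ‖w n‖ ≤ 1 := by
    intro n
    show ‖(((-1 : ℝ) ^ n * ε n : ℝ) : ℂ)‖ ≤ 1
    rw [Complex.norm_real, norm_mul, norm_pow, norm_neg, norm_one, one_pow, one_mul]
    rcases hε n with h | h <;> rw [h] <;> simp
  have hlim := H f w ?_ ?_ ?_ ?_ ?_
  rotate_left
  · -- bounded
    intro n _
    show ‖(if n % 2 = 1 then F n else 0 : ℂ)‖ ≤ 1
    split_ifs
    · exact (hF1 n).le
    · simp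
  · -- multiplicative
    intro m n hm hn _
    show (if (m * n) % 2 = 1 then F (m * n) else 0 : ℂ) =
      (if m % 2 = 1 then F m else 0) * (if n % 2 = 1 then F n else 0)
    rw [Nat.mul_mod]
    rcases Nat.mod_two_eq_zero_or_one m with hm2 | hm2 <;>
      rcases Nat.mod_two_eq_zero_or_one n with hn2 | hn2 <;> simp [hm2, hn2]
    exact hFm m n hm hn
  · intro a b ha hb
    exact hOD a b ha hb
  · intro n _
    exact hw1 n
  · exact h2 ε hε hεlim w (fun n => rfl)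
  -- contradiction at `N = T (k+1) - 1`
  have hsub : Tendsto (fun k : ℕ => T (k + 1) - 1) atTop atTop := by
    apply tendsto_atTop_mono (fun k => ?_) tendsto_id
    have := hT.id_le (k + 1)
    simp only [id] at this ⊢
    omega
  have hc := (hlim.comp hsub).norm
  rw [norm_zero] at hc
  have hev := hc.eventually (gt_mem_nhds (show (0 : ℝ) < 1 / 16 by norm_num))
  rw [eventually_atTop] at hev
  obtain ⟨k0, hk0⟩ := hev
  have hk := hk0 (max k0 5) (le_max_left _ _)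
  set k := max k0 5 with hkdef
  have hk5 : 5 ≤ k := le_max_right _ _
  simp only [Function.comp] at hk
  set N := T (k + 1) - 1 with hNdef
  have hNpos : 1 ≤ N := by
    have := hT.id_le (k + 1)
    simp only [id] at this
    omega
  have hNT : N < T (k + 1) := by omega
  have hLpos : ∀ n, L k ≤ n → 1 ≤ n := by
    intro n hn
    have a1 := hT.id_le k
    simp only [id] at a1
    have a2 := hL1 k
    omega
  have hτ : 2 * (1 / 2 : ℝ) ^ (k + 1) ≤ 1 / 32 := by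
    have : (1 / 2 : ℝ) ^ k ≤ (1 / 2 : ℝ) ^ 5 :=
      pow_le_pow_of_le_one (by norm_num) (by norm_num) hk5
    rw [pow_succ]
    norm_num at this ⊢
    linarith
  have hs2 : 2 ≤ s (k + 1) := by
    have := hs (k + 1)
    push_cast at this
    have : (0 : ℝ) ≤ k := Nat.cast_nonneg k
    linarith
  have hmain := hN1 (s (k + 1)) (L k) hs2 N (by have := hL4 k; omega) F ε (2 * (1 / 2 : ℝ) ^ (k + 1))
    (by positivity) hτ (fun n => (hF1 n).le) hε
    (fun n hn1 hn2 => hFc (k + 1) n (hLpos n hn1) (by omega))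
    (fun n hn1 hn2 => eps_on hT hLT hn1 (by omega))
  -- rewrite the sum
  have hsum : (∑ n ∈ Finset.Icc 1 N, f n * w n).re =
      - ∑ n ∈ (Icc 1 N).filter (fun n => n % 2 = 1), (F n * (ε n : ℂ)).re := by
    rw [Complex.re_sum, Finset.sum_filter, ← Finset.sum_neg_distrib]
    apply Finset.sum_congr rfl
    intro n _
    show ((if n % 2 = 1 then F n else 0 : ℂ) * (((-1 : ℝ) ^ n * ε n : ℝ) : ℂ)).re = _
    by_cases hn : n % 2 = 1
    · rw [if_pos hn, if_pos hn]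
      have : (-1 : ℝ) ^ n = -1 := (Nat.odd_iff.2 hn).neg_one_pow
      rw [this]
      push_cast
      rw [← Complex.neg_re]
      congr 1
      ring
    · rw [if_neg hn, if_neg hn]
      simp
  have hnorm : (N : ℝ) / 16 ≤ ‖∑ n ∈ Finset.Icc 1 N, f n * w n‖ := by
    calc (N : ℝ) / 16 ≤ - (∑ n ∈ Finset.Icc 1 N, f n * w n).re := by rw [hsum, neg_neg]; exact hmain
      _ ≤ |(∑ n ∈ Finset.Icc 1 N, f n * w n).re| := neg_le_abs _
      _ ≤ _ := Complex.abs_re_le_norm _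
  rw [norm_mul, norm_div, norm_one, Complex.norm_natCast] at hk
  have hN0 : (0 : ℝ) < N := by exact_mod_cast hNpos
  have : (1 : ℝ) / 16 ≤ 1 / N * ‖∑ n ∈ Finset.Icc 1 N, f n * w n‖ := by
    rw [div_mul_eq_mul_div, one_mul, le_div_iff₀ hN0]
    linarith
  linarith

end Pool.Agent.W200.MR
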