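import Mathlib

/-!
# Definitions and statements of the parts of the disproof of Q1 of MP_c45d52_nt (S18410)

Plan: `F n = lim_k n^{i s_k}` with `s_k → ∞` chosen so that `n^{i s_{k+1}}` is close to `n^{i s_k}`
for `n < T_k` and all averages of `n^{i s_{k+1}}` over residue classes mod `a ≤ k+1` up to `N ≥ T_k` are small.
`f n = F n` for odd `n` and `0` for even `n` is aperiodic, and `w n = (-1)^n ε n`, where `ε n` is the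
sign of `Re n^{i s_k}` on long ranges, has only Furstenberg systems with two points.
-/

open Finset Filter Topology MeasureTheory

namespace Pool.Agent.W200.MR

/-- `n^{is}` (equal to 1 at `n = 0`) -/
noncomputable def pw (s : ℝ) (n : ℕ) : ℂ := Complex.exp (((s * Real.log n : ℝ) : ℂ) * Complex.I)

/-- all prime factors are `< T` -/
def Smooth (T n : ℕ) : Prop := ∀ p : ℕ, p.Prime → p ∣ n → p < T

/-- all prime factors are `≥ T` -/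
def Rough (T n : ℕ) : Prop := ∀ p : ℕ, p.Prime → p ∣ n → T ≤ p

/-- the integers `1 ≤ n ≤ N` with `n ≡ b mod a` -/
def AP (a b N : ℕ) : Finset ℕ := (Icc 1 N).filter (fun n => n % a = b % a)

/-- sum of `n^{is}` over the progression -/
noncomputable def SA (s : ℝ) (a b N : ℕ) : ℂ := ∑ n ∈ AP a b N, pw s n

open Classical in
/-- sum of `n^{is}` over the smooth elements of the progression -/
noncomputable def SD (s : ℝ) (T a b N : ℕ) : ℂ := ∑ n ∈ (AP a b N).filter (fun n => Smooth T n), pw s n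

open Classical in
/-- sum of `n^{is}` over the non-smooth elements of the progression -/
noncomputable def SR (s : ℝ) (T a b N : ℕ) : ℂ := ∑ n ∈ (AP a b N).filter (fun n => ¬ Smooth T n), pw s n

open Classical in
/-- number of pairs of non-smooth integers `≤ N` whose quotient is a quotient of smooth integers -/
noncomputable def PA (T N : ℕ) : ℕ := (((Icc 1 N) ×ˢ (Icc 1 N)).filter (fun q : ℕ × ℕ =>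
  ¬ Smooth T q.1 ∧ ¬ Smooth T q.2 ∧
    ∃ u v : ℕ, 1 ≤ u ∧ 1 ≤ v ∧ Smooth T u ∧ Smooth T v ∧ u * q.1 = v * q.2)).card

/-- S_AP. Proof: `F(y) = y^{1+is}/(1+is)` has derivative `y^{is}`. Let `c' ∈ [1,a]` be the first positive
element of the class. If `c' > x` the sum is empty and the main term is `≤ x/a ≤ 1`. Otherwise for the
elements `n > a` of the class `‖a n^{is} - ∫_{n-a}^n y^{is} dy‖ ≤ a |s| log(n/(n-a)) ≤ a^2 |s|/(n-a)`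
(or `‖n^{is} - y^{is}‖ ≤ |s| log(n/y)`), the sum of these over `n = c' + j a`, `j ≥ 1`, divided by `a`
is `≤ a|s| + |s|(1 + log x)`; the integrals telescope to `F(n_last) - F(c')`;
`‖F(x) - F(n_last)‖ ≤ x - n_last ≤ a`, `‖F(c')‖ ≤ a`, the first term has norm 1. -/
def S_AP : Prop := ∀ (s : ℝ) (a c : ℕ) (x : ℝ), 1 ≤ a → 1 ≤ x →
  ‖SA s a c ⌊x⌋₊ - (x : ℂ) * Complex.exp (((s * Real.log x : ℝ) : ℂ) * Complex.I) /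
    ((a : ℂ) * (1 + (s : ℂ) * Complex.I))‖ ≤ 4 + |s| * (a + 2 + Real.log x)

open Classical in
/-- S_MU. Classical: `∑_{d ≤ N, d rough} μ(d) ⌊N/d⌋ = #{n ≤ N : n smooth}` (since `∑_{d ∣ n, d rough} μ(d)`
is 1 for smooth `n` and 0 otherwise), hence `N ∑ μ(d)/d = #smooth + ∑ μ(d) {N/d}`, the term `d = 1` of the
last sum is 0, so `|N ∑ μ(d)/d| ≤ #smooth + #rough - 1 ≤ N` (the only integer both smooth and rough is 1). -/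
def S_MU : Prop := ∀ T N : ℕ, 1 ≤ N →
  |∑ d ∈ (Icc 1 N).filter (fun d => Rough T d), ((ArithmeticFunction.moebius d : ℤ) : ℝ) / (d : ℝ)| ≤ 1

open Classical in
/-- S_RO. Proof: let `P` be the product of the primes `< z` where `z` is fixed and large; rough (T ≥ z) integers are
coprime to `P`; `#{n ≤ N : (n,P) = 1} ≤ (N/P + 1) φ(P) ≤ N φ(P)/P + P`, and `φ(P)/P = ∏_{p<z} (1-1/p) → 0`
because `∑ 1/p` diverges (`Nat.Primes.not_summable_one_div`); take `T ≥ 2P/κ`. -/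
def S_RO : Prop := ∀ κ : ℝ, 0 < κ → ∃ T0 : ℕ, ∀ T : ℕ, T0 ≤ T → ∀ N : ℕ, T ≤ N →
  (((Icc 1 N).filter (fun d => Rough T d)).card : ℝ) ≤ κ * N

/-- S_DET. -/
def S_DET : Prop := ∀ (s η : ℝ) (A : ℕ), 0 < η → 1 / ‖(1 : ℂ) + (s : ℂ) * Complex.I‖ ≤ η →
  ∃ T0 : ℕ, ∀ T : ℕ, T0 ≤ T → ∀ N : ℕ, T ≤ N → ∀ a b : ℕ, 1 ≤ a → a ≤ A →
    ‖SD s T a b N‖ ≤ 2 * η * N

/-- S_SUP. If `‖A(N0)‖ ≥ 2 η N0` then for `N0 ≤ N ≤ (1+η/2) N0` one has `‖A(N)‖ ≥ 1.5 η N0 ≥ η N`, so these terms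
are `≥ η²/(1.5 N0)`, and there are at least `η N0/2` of them; the sum is `≥ η³/3`. -/
def S_SUP : Prop := ∀ (c : ℕ → ℂ) (η : ℝ) (N0 : ℕ), (∀ n, ‖c n‖ ≤ 1) → 0 < η → η ≤ 1 → 1 ≤ N0 →
  ∑ N ∈ Icc N0 (2 * N0), ‖∑ n ∈ Icc 1 N, c n‖ ^ 2 / (N : ℝ) ^ 3 < η ^ 3 / 4 →
  ‖∑ n ∈ Icc 1 N0, c n‖ < 2 * η * N0

/-- S_PAIR. A pair `(n, n')` counted in `PA T N` is `(r m, r m')` with `r ≥ T` rough and `m, m'` smooth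
(`r` = common rough part). `∑_{N ≥ max(n,n')} 1/N^3 ≤ 2/max(n,n')^2`, so the sum is at most
`∑_{r ≥ T} 2/r^2 * ∑_{m,m' smooth} 1/max(m,m')^2 ≤ (4/T) * 2 ∑_{m smooth} 1/m` (for given `m` there are at most `m`
values `m' ≤ m`) and `∑_{m smooth} 1/m = ∏_{p<T} (1-1/p)^{-1} ≤ 2 ∏_{j ≤ T/2} (2j+1)/(2j) ≤ 2 √(T+1)`
(`(2j+1)/(2j) ≤ √((2j+1)/(2j-1))`); use `Mathlib` `EulerProduct`/`Nat.smoothNumbers` or a direct induction over primes. -/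
def S_PAIR : Prop := ∃ C : ℝ, 0 < C ∧ ∀ T X : ℕ, 2 ≤ T →
  ∑ N ∈ Icc T X, (PA T N : ℝ) / (N : ℝ) ^ 3 ≤ C / Real.sqrt T

/-- S_MV1 (mean values of Dirichlet polynomials). Expand the square; `∫_S^{2S} (k/l)^{it} dt` is `S` for `k = l`
and bounded by `2/|log k - log l|` for `k ≠ l`. -/
def S_MV1 : Prop := ∀ (K : Finset ℕ) (c : ℕ → ℂ), (∀ k ∈ K, 1 ≤ k) →
  Tendsto (fun S : ℝ => (1 / S) * ∫ t in S..(2 * S), ‖∑ k ∈ K, c k * pw t k‖ ^ 2) atTop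
    (𝓝 (∑ k ∈ K, ‖c k‖ ^ 2))

/-- S_MV2. Same expansion, `|log(k/l)| ≥ |k-l|/N`, `∑_{k≠l} 2N/|k-l| ≤ 4 N^2 (1+log N)`. -/
def S_MV2 : Prop := ∀ (c : ℕ → ℂ), (∀ n, ‖c n‖ ≤ 1) → ∀ (N : ℕ) (S : ℝ), 1 ≤ N → 1 ≤ S →
  ∫ t in S..(2 * S), ‖∑ n ∈ Icc 1 N, c n * pw t n‖ ^ 2 ≤ S * N + 4 * (N : ℝ) ^ 2 * (1 + Real.log N)

/-- a good set of weights -/
def IsW (T m : ℕ) (U : Finset ℕ) : Prop :=
  U.Nonempty ∧ (∀ u ∈ U, 1 ≤ u ∧ Smooth T u) ∧ U.card ≤ m ^ T ∧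
  ∀ p : ℕ, p.Prime → p < T →
    ((U.image (fun u => p * u) \ U).card : ℝ) ≤ U.card / m ∧
    ((U \ U.image (fun u => p * u)).card : ℝ) ≤ U.card / m

/-- S_U. `U` = divisors of `(∏_{p<T} p)^{m-1}`. -/
def S_U : Prop := ∀ T m : ℕ, 1 ≤ m → ∃ U : Finset ℕ, IsW T m U

/-- S_WT. (b): the Dirichlet polynomial `G(t)(p^{it}-1)` has coefficients `1` on `pU \ U`, `-1` on `U \ pU`, `0` else.
(c): `G(t) ∑_{n∈B} α n n^{it} = ∑_k c_k k^{it}`, `|c_k| ≤ #{(u,n) : un = k}`, so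
`∑ |c_k|^2 ≤ #{(u,n,u',n') : un = u'n'} ≤ PA T N * #U` (for `n, n', u` given there is at most one `u'`). -/
def S_WT : Prop := ∀ (T m : ℕ) (U : Finset ℕ), 1 ≤ m → IsW T m U → ∀ e : ℝ, 0 < e →
  (∀ᶠ S : ℝ in atTop, (1 - e) * U.card ≤ (1 / S) * ∫ t in S..(2 * S), ‖∑ u ∈ U, pw t u‖ ^ 2) ∧
  (∀ p : ℕ, p.Prime → p < T → ∀ᶠ S : ℝ in atTop,
    (1 / S) * ∫ t in S..(2 * S), ‖∑ u ∈ U, pw t u‖ ^ 2 * ‖pw t p - 1‖ ^ 2 ≤ (2 / m + e) * U.card) ∧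
  (∀ (N : ℕ) (B : Finset ℕ) (α : ℕ → ℂ), B ⊆ Icc 1 N → (∀ n ∈ B, ¬ Smooth T n) → (∀ n, ‖α n‖ ≤ 1) →
    ∀ᶠ S : ℝ in atTop, (1 / S) * ∫ t in S..(2 * S),
      ‖∑ u ∈ U, pw t u‖ ^ 2 * ‖∑ n ∈ B, α n * pw t n‖ ^ 2 ≤ (PA T N + e) * U.card)

/-- S_EX (existence of a good `t` by averaging with the weight `‖G(t)‖²/#U`). -/
def S_EX : Prop := ∃ C : ℝ, 0 < C ∧ ∀ (T A m Y : ℕ) (s q S0 : ℝ), 2 ≤ T → 1 ≤ A → 1 ≤ m → 0 < q →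
  C * (A : ℝ) ^ 2 / Real.sqrt T ≤ q → 16 * (A : ℝ) ^ 2 * (m : ℝ) ^ T / q ≤ Y → T ≤ Y →
  ∃ (t : ℝ) (X : ℕ), S0 ≤ t ∧ 0 ≤ t ∧ t ≤ 2 * Real.sqrt X ∧ Y ≤ X ∧
    ∑ p ∈ (range T).filter Nat.Prime, ‖pw t p - 1‖ ^ 2 ≤ 16 * T / m ∧
    ∑ a ∈ Icc 1 A, ∑ b ∈ range a, ∑ N ∈ Icc T (2 * Y), ‖SR (s + t) T a b N‖ ^ 2 / (N : ℝ) ^ 3 < q ∧
    ∑ a ∈ Icc 1 A, ∑ b ∈ range a, ∑ N ∈ Icc Y (2 * X), ‖SA (s + t) a b N‖ ^ 2 / (N : ℝ) ^ 3 < q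

/-- S_L2. -/
def S_L2 : Prop := ∀ (η : ℝ) (A : ℕ), 0 < η → ∃ T0 : ℕ, ∀ T : ℕ, T0 ≤ T → ∀ (s δ S0 : ℝ), 0 < δ →
  ∃ t : ℝ, S0 ≤ t ∧ (∀ n : ℕ, 1 ≤ n → n < T → ‖pw t n - 1‖ ≤ δ) ∧
    ∀ N : ℕ, T ≤ N → ∀ a b : ℕ, 1 ≤ a → a ≤ A →
      ‖SA (s + t) a b N‖ ≤ ‖SD s T a b N‖ + η * N

/-- S_SEQ. -/
def S_SEQ : Prop := ∀ Φ : ℕ → ℝ → ℕ → ℕ, ∃ (s : ℕ → ℝ) (T : ℕ → ℕ),
  (∀ k : ℕ, (k : ℝ) + 1 ≤ s k) ∧ (∀ k, T k < T (k + 1)) ∧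
  (∀ k n : ℕ, 1 ≤ n → n < T k → ‖pw (s (k + 1)) n - pw (s k) n‖ ≤ (1 / 2 : ℝ) ^ k) ∧
  (∀ k N : ℕ, T k ≤ N → ∀ a b : ℕ, 1 ≤ a → a ≤ k + 1 →
    ‖SA (s (k + 1)) a b N‖ ≤ 3 / ((k : ℝ) + 1) * N) ∧
  (∀ k, Φ k (s (k + 1)) (T k) ≤ T (k + 1))

/-- S_FUR: the condition on Furstenberg systems for `w n = (-1)^n ε n` with few sign changes of `ε`.
Proof: `m = 2`, `h = (0,0)`: `w n ^ 2 = 1`, so `∫ x_0^2 dμ = 1`, and `m = 2`, `h = (0,1)`: `∫ x_0 x_1 dμ = -1`;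
since `‖x_z‖ ≤ 1` a.e. this gives `x_0^2 = 1` and `x_0 x_1 = -1` a.e., by invariance `x_z x_{z+1} = -1` a.e. for
all `z`. So `μ` lives on the two points `y_i = (z ↦ (-1)^{z+i})`, interchanged by the shift. Ergodicity: an
invariant set contains both or none. Entropy: at most two words have positive measure, so the sum is `≤ 2`. -/
def S_FUR : Prop := ∀ ε : ℕ → ℝ, (∀ n, ε n = 1 ∨ ε n = -1) →
  Tendsto (fun N : ℕ => (1 / (N : ℝ)) * ∑ n ∈ Icc 1 N, ε n * ε (n + 1)) atTop (𝓝 1) →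
  ∀ w : ℕ → ℂ, (∀ n, w n = (((-1 : ℝ) ^ n * ε n : ℝ) : ℂ)) →
    (∀ (Nk : ℕ → ℕ) (μ : Measure (ℤ → ℂ)), StrictMono Nk → IsProbabilityMeasure μ →
      μ {x | ∀ z : ℤ, ‖x z‖ ≤ 1} = 1 →
      MeasurePreserving (fun x : ℤ → ℂ => fun z : ℤ => x (z + 1)) μ μ →
      (∀ (m : ℕ) (h : Fin m → ℕ) (ε : Fin m → Bool),
        Tendsto (fun k : ℕ => (1 / (Nk k : ℂ)) * ∑ n ∈ Finset.Icc 1 (Nk k),
            ∏ j : Fin m, (if ε j then starRingEnd ℂ (w (n + h j)) else w (n + h j)))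
          atTop
          (𝓝 (∫ x, ∏ j : Fin m,
              (if ε j then starRingEnd ℂ (x ((h j : ℕ) : ℤ)) else x ((h j : ℕ) : ℤ)) ∂μ))) →
      Ergodic (fun x : ℤ → ℂ => fun z : ℤ => x (z + 1)) μ ∧
      ∀ (k : ℕ) (g : (ℤ → ℂ) → Fin k), Measurable g →
        Tendsto (fun n : ℕ =>
            (∑ a : Fin n → Fin k,
              Real.negMulLog
                (μ {x | ∀ i : Fin n, g (fun z : ℤ => x (z + ((i : ℕ) : ℤ))) = a i}).toReal)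
              / (n : ℝ))
          atTop (𝓝 0))

open Classical in
/-- the sign sequence -/
noncomputable def eps (s : ℕ → ℝ) (T L : ℕ → ℕ) (n : ℕ) : ℝ :=
  if ∃ k : ℕ, L k ≤ n ∧ n < T (k + 1) ∧ (pw (s (k + 1)) n).re < 0 then -1 else 1

/-- S_EPS: few sign changes. Proof: a sign change between `n` and `n+1` (both in `[L k, T (k+1))`) forces a zero
`s_{k+1} log x = π/2 + π j` of the cosine with `n ≤ x ≤ n+1`; for given `k` there are at most `s_{k+1} log(N+1) + 2` of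
them (`x ≤ N+1`), and each `j` is used by at most two `n`; besides there are at most `4` changes per `k` at the ends of
`[L k, T(k+1))`. Only `k` with `L k ≤ N+1` matter, for these `k+1 ≤ (N+1)^{1/4}` and `s_{k+1} ≤ (N+1)^{1/4}`.
So the number of `n ≤ N` with `ε n ≠ ε (n+1)` is `O(√N log N)`. -/
def S_EPS : Prop := ∀ (s : ℕ → ℝ) (T L : ℕ → ℕ), (∀ k : ℕ, (k : ℝ) + 1 ≤ s k) →
  (∀ k, T k ≤ L k ∧ L k < T (k + 1)) →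
  (∀ k : ℕ, (((k : ℝ) + 1) * s (k + 1)) ^ 4 ≤ L k) →
  Tendsto (fun N : ℕ => (1 / (N : ℝ)) * ∑ n ∈ Icc 1 N, eps s T L n * eps s T L (n + 1)) atTop (𝓝 1)

/-- S_COR: the correlation at the scale `N`. Proof: `Re(z n * e n) ≥ |Re n^{is}| - τ ≥ (Re n^{is})^2 - τ` for odd
`n ∈ [L, N]`, `(Re n^{is})^2 = (1 + Re n^{2is})/2`, and `S_AP` with `a = 2`, `2s`, `x = N`: `‖SA (2s) 2 1 N‖ ≤ N/(2‖1+2is‖) + O_s(1 + log N)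
≤ N/16`. -/
def S_COR : Prop := ∀ (s : ℝ) (L : ℕ), 2 ≤ s → ∃ N1 : ℕ, ∀ N : ℕ, N1 ≤ N → ∀ (z : ℕ → ℂ) (e : ℕ → ℝ) (τ : ℝ),
  0 ≤ τ → τ ≤ 1 / 32 → (∀ n, ‖z n‖ ≤ 1) → (∀ n, e n = 1 ∨ e n = -1) →
  (∀ n : ℕ, L ≤ n → n ≤ N → ‖z n - pw s n‖ ≤ τ) →
  (∀ n : ℕ, L ≤ n → n ≤ N → e n = if (pw s n).re < 0 then -1 else 1) →
  (N : ℝ) / 16 ≤ ∑ n ∈ (Icc 1 N).filter (fun n => n % 2 = 1), (z n * (e n : ℂ)).re

/-! ### finer pieces -/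

open Classical in
/-- S_DEa. For `n ≥ 1`: `1_{Smooth T n} = ∑_{d ∣ n, Rough T d} μ(d)`; swap the sums, `n = d m`, `pw s (d m) = pw s d * pw s m`;
a rough `d` is coprime to `a < T`, so `d m ≡ b (mod a)` iff `m ≡ c d (mod a)` for a suitable `c d`. -/
def S_DEa : Prop := ∀ (s : ℝ) (T a b N : ℕ), 1 ≤ a → a < T → ∃ c : ℕ → ℕ,
  SD s T a b N = ∑ d ∈ (Icc 1 N).filter (fun d => Rough T d),
    ((ArithmeticFunction.moebius d : ℤ) : ℂ) * pw s d * SA s a (c d) (N / d)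

open Classical in
/-- S_DEb. `1 + log y ≤ 2 √y` for `y ≥ 1`; split at `d = N/L²`: the part `d ≤ N/L²` is at most
`2K ∑_{d ≤ N/L²} √(N/d) ≤ 4KN/L`, the part `d > N/L²` at most `2KL #{rough d ≤ N} ≤ 2KLκ'N` by S_RO. -/
def S_DEb : Prop := ∀ (K κ : ℝ), 0 ≤ K → 0 < κ → ∃ T0 : ℕ, ∀ T : ℕ, T0 ≤ T → ∀ N : ℕ, T ≤ N →
  ∑ d ∈ (Icc 1 N).filter (fun d => Rough T d), (K + K * Real.log ((N : ℝ) / d)) ≤ κ * N

/-- S_SM. `∑_{m smooth} 1/m = ∏_{p<T} (1-1/p)^{-1} ≤ 2 ∏_{3 ≤ 2j+1 < T} (2j+1)/(2j) ≤ 2 √T`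
(`((2j+1)/(2j))^2 ≤ (2j+1)/(2j-1)`). -/
def S_SM : Prop := ∀ (T : ℕ) (K : Finset ℕ), 1 ≤ T → (∀ k ∈ K, 1 ≤ k ∧ Smooth T k) →
  ∑ k ∈ K, (1 : ℝ) / k ≤ 4 * Real.sqrt T

/-- first weighted sum -/
noncomputable def Q1 (T A Y : ℕ) (s t : ℝ) : ℝ :=
  ∑ a ∈ Icc 1 A, ∑ b ∈ range a, ∑ N ∈ Icc T (2 * Y), ‖SR (s + t) T a b N‖ ^ 2 / (N : ℝ) ^ 3

/-- second weighted sum -/
noncomputable def Q2 (A Y X : ℕ) (s t : ℝ) : ℝ :=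
  ∑ a ∈ Icc 1 A, ∑ b ∈ range a, ∑ N ∈ Icc Y (2 * X), ‖SA (s + t) a b N‖ ^ 2 / (N : ℝ) ^ 3

/-- S_EX1: sum of S_WT (b) with `e = 1/m` over the primes `p < T`. -/
def S_EX1 : Prop := ∀ (T m : ℕ) (U : Finset ℕ), 1 ≤ m → IsW T m U →
  ∀ᶠ S : ℝ in atTop, (1 / S) * ∫ t in S..(2 * S),
    ‖∑ u ∈ U, pw t u‖ ^ 2 * (∑ p ∈ (range T).filter Nat.Prime, ‖pw t p - 1‖ ^ 2) ≤ 3 * T / m * U.card

/-- S_EX2: S_WT (c) with `B` = the non-smooth elements of `AP a b N`, `α = pw s` (`pw (s+t) n = pw s n * pw t n`), summed over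
`N, a, b` (at most `A^2` pairs `(a,b)`), and S_PAIR. -/
def S_EX2 : Prop := ∃ C : ℝ, 0 < C ∧ ∀ (T A m Y : ℕ) (s : ℝ) (U : Finset ℕ), 2 ≤ T → 1 ≤ m → IsW T m U →
  ∀ e : ℝ, 0 < e → ∀ᶠ S : ℝ in atTop, (1 / S) * ∫ t in S..(2 * S),
    ‖∑ u ∈ U, pw t u‖ ^ 2 * Q1 T A Y s t ≤ (C * (A : ℝ) ^ 2 / Real.sqrt T + e) * U.card

/-- S_EX3: S_MV2 with `c n = pw s n` if `n % a = b % a` and `0` otherwise, summed over `N ∈ [Y, 2X]`, `X = ⌈S⌉²`: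
`∑ N/N^3 ≤ 2/Y`, `(4/S) ∑ N^2 (1+log N)/N^3 ≤ (4/S) (1+log(2X))^2 → 0`. -/
def S_EX3 : Prop := ∀ (A Y : ℕ) (s e : ℝ), 1 ≤ Y → 0 < e → ∀ᶠ S : ℝ in atTop,
  (1 / S) * ∫ t in S..(2 * S), Q2 A Y (⌈S⌉₊ ^ 2) s t ≤ (A : ℝ) ^ 2 * (2 / Y + e)

/-- S_L2a: `‖pw t (uv) - 1‖ ≤ ‖pw t u - 1‖ + ‖pw t v - 1‖`, every prime `p < T` has `‖pw t p - 1‖ ≤ 4 √(T/m)` and `n ≤ Y` has
at most `log_2 Y` prime factors. -/
def S_L2a : Prop := ∀ (T m Y : ℕ) (t : ℝ), 1 ≤ m →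
  ∑ p ∈ (range T).filter Nat.Prime, ‖pw t p - 1‖ ^ 2 ≤ 16 * T / m →
  ∀ n : ℕ, 1 ≤ n → n ≤ Y → Smooth T n → ‖pw t n - 1‖ ≤ Nat.log 2 Y * (4 * Real.sqrt ((T : ℝ) / m))

/-- S_L2b: choice of `m` and then `Y` (`log Y` grows like `T log m`). -/
def S_L2b : Prop := ∀ (T A Y0 : ℕ) (q κ : ℝ), 0 < q → 0 < κ → ∃ m Y : ℕ, 1 ≤ m ∧ T ≤ Y ∧ Y0 ≤ Y ∧
  16 * (A : ℝ) ^ 2 * (m : ℝ) ^ T / q ≤ Y ∧ Nat.log 2 Y * (4 * Real.sqrt ((T : ℝ) / m)) ≤ κ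

/-- S_L2c: S_AP with `x = N`: the main term is at most `N/‖1+i(s+t)‖ ≤ η N/2`, the error at most
`4 + (|s| + 2√N)(A + 2 + log N) ≤ η N/2`. -/
def S_L2c : Prop := ∀ (s η : ℝ) (A : ℕ), 0 < η → ∃ (N0 : ℕ) (S1 : ℝ), ∀ (t : ℝ) (X N : ℕ),
  S1 ≤ t → 0 ≤ t → t ≤ 2 * Real.sqrt X → X ≤ N → N0 ≤ N → ∀ a b : ℕ, 1 ≤ a → a ≤ A →
    ‖SA (s + t) a b N‖ ≤ η * N

/-- S_FURa: see S_FUR. -/
def S_FURa : Prop := ∀ ε : ℕ → ℝ, (∀ n, ε n = 1 ∨ ε n = -1) →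
  Tendsto (fun N : ℕ => (1 / (N : ℝ)) * ∑ n ∈ Icc 1 N, ε n * ε (n + 1)) atTop (𝓝 1) →
  ∀ w : ℕ → ℂ, (∀ n, w n = (((-1 : ℝ) ^ n * ε n : ℝ) : ℂ)) →
    ∀ (Nk : ℕ → ℕ) (μ : Measure (ℤ → ℂ)), StrictMono Nk → IsProbabilityMeasure μ →
      μ {x | ∀ z : ℤ, ‖x z‖ ≤ 1} = 1 →
      MeasurePreserving (fun x : ℤ → ℂ => fun z : ℤ => x (z + 1)) μ μ →
      (∀ (m : ℕ) (h : Fin m → ℕ) (ε : Fin m → Bool),
        Tendsto (fun k : ℕ => (1 / (Nk k : ℂ)) * ∑ n ∈ Finset.Icc 1 (Nk k),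
            ∏ j : Fin m, (if ε j then starRingEnd ℂ (w (n + h j)) else w (n + h j)))
          atTop
          (𝓝 (∫ x, ∏ j : Fin m,
              (if ε j then starRingEnd ℂ (x ((h j : ℕ) : ℤ)) else x ((h j : ℕ) : ℤ)) ∂μ))) →
      ∀ᵐ x ∂μ, (∀ z : ℤ, x z = (-1 : ℂ) ^ z) ∨ (∀ z : ℤ, x z = -(-1 : ℂ) ^ z)

/-- S_FURb: an invariant measure on two points interchanged by the shift is ergodic of zero entropy. -/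
def S_FURb : Prop := ∀ μ : Measure (ℤ → ℂ), IsProbabilityMeasure μ →
  MeasurePreserving (fun x : ℤ → ℂ => fun z : ℤ => x (z + 1)) μ μ →
  (∀ᵐ x ∂μ, (∀ z : ℤ, x z = (-1 : ℂ) ^ z) ∨ (∀ z : ℤ, x z = -(-1 : ℂ) ^ z)) →
  Ergodic (fun x : ℤ → ℂ => fun z : ℤ => x (z + 1)) μ ∧
      ∀ (k : ℕ) (g : (ℤ → ℂ) → Fin k), Measurable g →
        Tendsto (fun n : ℕ =>
            (∑ a : Fin n → Fin k,
              Real.negMulLog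
                (μ {x | ∀ i : Fin n, g (fun z : ℤ => x (z + ((i : ℕ) : ℤ))) = a i}).toReal)
              / (n : ℝ))
          atTop (𝓝 0)

open Classical in
/-- S_EPa: a sign change between `n` and `n+1` forces `s log x = π/2 + π j` for some `x ∈ [n, n+1]` and an integer
`j ≥ 0`; there are at most `s log(N+1)/π + 1` such `j` and each is used by at most two `n`. -/
def S_EPa : Prop := ∀ (s : ℝ) (N : ℕ), 1 ≤ s →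
  (((Icc 1 N).filter (fun n => ¬ ((pw s n).re < 0 ↔ (pw s (n + 1)).re < 0))).card : ℝ) ≤
    4 * (s * Real.log (N + 1) + 1)

/-- S_LIM: the limit `F n = lim_k pw (s k) n`. -/
def S_LIM : Prop := ∀ (s : ℕ → ℝ) (T : ℕ → ℕ), (∀ k, T k < T (k + 1)) →
  (∀ k n : ℕ, 1 ≤ n → n < T k → ‖pw (s (k + 1)) n - pw (s k) n‖ ≤ (1 / 2 : ℝ) ^ k) →
  ∃ F : ℕ → ℂ, (∀ n, ‖F n‖ = 1) ∧ (∀ m n : ℕ, 1 ≤ m → 1 ≤ n → F (m * n) = F m * F n) ∧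
    (∀ k n : ℕ, 1 ≤ n → n < T k → ‖F n - pw (s k) n‖ ≤ 2 * (1 / 2 : ℝ) ^ k)

/-- S_APM: for `T k ≤ N < T (k+1)`, `a ≤ k+1` the sum over `AP a b N` is at most `(3/(k+1) + 2^{-k}) N`. -/
def S_APM : Prop := ∀ (s : ℕ → ℝ) (T : ℕ → ℕ) (F : ℕ → ℂ), (∀ k, T k < T (k + 1)) →
  (∀ k n : ℕ, 1 ≤ n → n < T k → ‖F n - pw (s k) n‖ ≤ 2 * (1 / 2 : ℝ) ^ k) →
  (∀ k N : ℕ, T k ≤ N → ∀ a b : ℕ, 1 ≤ a → a ≤ k + 1 →
    ‖SA (s (k + 1)) a b N‖ ≤ 3 / ((k : ℝ) + 1) * N) →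
  ∀ a b : ℕ, 1 ≤ a → Tendsto (fun N : ℕ => (1 / (N : ℂ)) * ∑ n ∈ AP a b N, F n) atTop (𝓝 0)

/-- S_OD: `m = a n + b` odd means `m ≡ b` or `m ≡ b + a (mod 2a)` (those of the two classes that are odd). -/
def S_OD : Prop := ∀ F : ℕ → ℂ, (∀ n, ‖F n‖ ≤ 1) →
  (∀ a b : ℕ, 1 ≤ a → Tendsto (fun N : ℕ => (1 / (N : ℂ)) * ∑ n ∈ AP a b N, F n) atTop (𝓝 0)) →
  ∀ a b : ℕ, 1 ≤ a → 1 ≤ b →
    Tendsto (fun N : ℕ => (1 / (N : ℂ)) * ∑ n ∈ Icc 1 N,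
      (if (a * n + b) % 2 = 1 then F (a * n + b) else 0)) atTop (𝓝 0)

end Pool.Agent.W200.MR
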